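import Pool.Agent.ISO.StmtsM

/-!
# ISO row MVP (helper39)

The fibre over `0` of a fibre product is the fibre product of the fibres over `0`: both sides have
the same points.
-/

set_option autoImplicit false

namespace Pool.Agent.ISO.H39

open MvPolynomial Pool.Agent.Helper6_Mono

section

variable {k : Type} [Field k] {σ : Type} {f f1 : MvPolynomial σ k}

theorem ev_inl {ι ι' : Type} {S : Type} [CommRing S] [Algebra k S] (x : ι ⊕ ι' → S)
    (e : MvPolynomial ι k) :
    ev x (rename Sum.inl e : MvPolynomial (ι ⊕ ι') k) = ev (fun i => x (Sum.inl i)) e := by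
  unfold ev
  rw [aeval_rename]
  rfl

theorem ev_inr {ι ι' : Type} {S : Type} [CommRing S] [Algebra k S] (x : ι ⊕ ι' → S)
    (e : MvPolynomial ι' k) :
    ev x (rename Sum.inr e : MvPolynomial (ι ⊕ ι') k) = ev (fun i => x (Sum.inr i)) e := by
  unfold ev
  rw [aeval_rename]
  rfl

theorem ev_sub {ι : Type} {S : Type} [CommRing S] [Algebra k S] (x : ι → S)
    (e e' : MvPolynomial ι k) : ev x (e - e') = ev x e - ev x e' := by
  unfold ev
  rw [map_sub]

/-- the condition on the coordinates of a point, for both sides -/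
def Cond (V W : GSch f1) {S : Type} [CommRing S] [Algebra k S] (x : V.Idx ⊕ W.Idx → S) : Prop :=
  (∀ e ∈ V.eqs, ev (fun i => x (Sum.inl i)) e = 0) ∧
    (∀ e ∈ W.eqs, ev (fun i => x (Sum.inr i)) e = 0) ∧
    (∀ i, ev (fun i => x (Sum.inl i)) (V.pt i) = 0) ∧
    ∀ i, ev (fun i => x (Sum.inr i)) (W.pt i) = 0

theorem left_iff (p : σ → k) (hp : eval p f = 0) (V W : GSch f1) {S : Type} [CommRing S]
    [Algebra k S] (x : V.Idx ⊕ W.Idx → S) :
    (∀ e ∈ (mv f p hp (V.prod W)).eqs, ev x e = 0) ↔ Cond V W x := by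
  constructor
  · intro h
    have h1 : ∀ i, ev (fun i => x (Sum.inl i)) (V.pt i) = 0 := by
      intro i
      rw [← ev_inl]
      exact h _ (Or.inr ⟨i, rfl⟩)
    refine ⟨?_, ?_, h1, ?_⟩
    · intro e he
      rw [← ev_inl]
      exact h _ (Or.inl (Or.inl ⟨e, he, rfl⟩))
    · intro e he
      rw [← ev_inr]
      exact h _ (Or.inl (Or.inr (Or.inl ⟨e, he, rfl⟩)))
    · intro i
      have h2 := h _ (Or.inl (Or.inr (Or.inr ⟨i, rfl⟩)))
      have h3 : ev x (rename Sum.inl (V.pt i) - rename Sum.inr (W.pt i) :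
          MvPolynomial (V.Idx ⊕ W.Idx) k) = 0 := h2
      rw [ev_sub, ev_inl, ev_inr, h1 i, zero_sub, neg_eq_zero] at h3
      exact h3
  · rintro ⟨h1, h2, h3, h4⟩ e ((⟨e', he', rfl⟩ | ⟨e', he', rfl⟩ | ⟨i, rfl⟩) | ⟨i, rfl⟩)
    · have h5 : ev x (rename Sum.inl e' : MvPolynomial (V.Idx ⊕ W.Idx) k) = 0 := by
        rw [ev_inl]
        exact h1 e' he'
      exact h5
    · have h5 : ev x (rename Sum.inr e' : MvPolynomial (V.Idx ⊕ W.Idx) k) = 0 := by
        rw [ev_inr]
        exact h2 e' he'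
      exact h5
    · have h5 : ev x (rename Sum.inl (V.pt i) - rename Sum.inr (W.pt i) :
          MvPolynomial (V.Idx ⊕ W.Idx) k) = 0 := by
        rw [ev_sub, ev_inl, ev_inr, h3 i, h4 i, sub_zero]
      exact h5
    · have h5 : ev x (rename Sum.inl (V.pt i) : MvPolynomial (V.Idx ⊕ W.Idx) k) = 0 := by
        rw [ev_inl]
        exact h3 i
      exact h5

theorem right_iff (p : σ → k) (hp : eval p f = 0) (V W : GSch f1) {S : Type} [CommRing S]
    [Algebra k S] (x : V.Idx ⊕ W.Idx → S) :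
    (∀ e ∈ ((mv f p hp V).prod (mv f p hp W)).eqs, ev x e = 0) ↔ Cond V W x := by
  constructor
  · intro h
    refine ⟨?_, ?_, ?_, ?_⟩
    · intro e he
      rw [← ev_inl]
      exact h _ (Or.inl ⟨e, Or.inl he, rfl⟩)
    · intro e he
      rw [← ev_inr]
      exact h _ (Or.inr (Or.inl ⟨e, Or.inl he, rfl⟩))
    · intro i
      rw [← ev_inl]
      exact h _ (Or.inl ⟨V.pt i, Or.inr ⟨i, rfl⟩, rfl⟩)
    · intro i
      rw [← ev_inr]
      exact h _ (Or.inr (Or.inl ⟨W.pt i, Or.inr ⟨i, rfl⟩, rfl⟩))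
  · rintro ⟨h1, h2, h3, h4⟩ e (⟨e', he', rfl⟩ | ⟨e', he', rfl⟩ | ⟨i, rfl⟩)
    · have h5 : ev x (rename Sum.inl e' : MvPolynomial (V.Idx ⊕ W.Idx) k) = 0 := by
        rw [ev_inl]
        rcases he' with he' | ⟨i, rfl⟩
        · exact h1 e' he'
        · exact h3 i
      exact h5
    · have h5 : ev x (rename Sum.inr e' : MvPolynomial (V.Idx ⊕ W.Idx) k) = 0 := by
        rw [ev_inr]
        rcases he' with he' | ⟨i, rfl⟩
        · exact h2 e' he'
        · exact h4 i
      exact h5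
    · have h5 : ev x (rename Sum.inl (C (p i)) - rename Sum.inr (C (p i)) :
          MvPolynomial (V.Idx ⊕ W.Idx) k) = 0 := by
        rw [ev_sub, rename_C, rename_C, sub_self]
      exact h5

end

theorem mvp : MvpStmt := by
  intro k _ σ f f1 p hp V W
  refine ⟨⟨fun S _ _ x => ⟨x.crd, (right_iff p hp V W x.crd).2 ((left_iff p hp V W x.crd).1 x.eq)⟩,
    fun S _ _ => ⟨?_, ?_⟩⟩, ?_, ?_, ?_⟩
  · intro x y hxy
    have h1 : x.crd = y.crd := congrArg (GSch.Pt.crd (V := (mv f p hp V).prod (mv f p hp W))) hxy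
    cases x
    cases y
    cases h1
    rfl
  · intro y
    exact ⟨⟨y.crd, (left_iff p hp V W y.crd).2 ((right_iff p hp V W y.crd).1 y.eq)⟩, rfl⟩
  · intro S S' _ _ _ _ φ x x' h i
    exact h i
  · intro S _ _ c x x' h i
    exact h i
  · intro S _ _ x i
    have h1 : ev x.crd (rename Sum.inl (C (p i)) : MvPolynomial (V.Idx ⊕ W.Idx) k) =
        ev x.crd (C (p i) : MvPolynomial (V.Idx ⊕ W.Idx) k) := by
      rw [rename_C]
    exact h1

end Pool.Agent.ISO.H39
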